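import Pool.Agent.H12.PD.AMB
import Pool.Agent.H12.PD.ARC
import Pool.Agent.H12.PD.NUM
import Pool.Agent.H12.PD.PHI
import Pool.Agent.H12.PD.TAU
import Pool.Agent.H12.PD.THT
import Pool.Agent.H14.PD.Asm
import Pool.Agent.H14.PD.DEA
import Pool.Agent.H14.PD.DEL
import Pool.Agent.H14.PD.FIN
import Pool.Agent.H14.PD.FNL
import Pool.Agent.H14.PD.PRR
import Pool.Agent.H14.PD.QS
import Pool.Agent.H14.PD.TRI
import Pool.Agent.H14.PD.WB
import Pool.Agent.H2.PD.SLP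
import Pool.Agent.H22.PD.LEV
import Pool.Agent.H22.PD.REM
import Pool.Agent.H22.PD.VDW
import Pool.Agent.H29.PD.SZB
import Pool.Agent.H29.PD.XVP
import Pool.Agent.H4.PD.XLK
import Pool.Agent.H42.PD.LOC
import Pool.Agent.H42.PD.LOG
import Pool.Agent.H42.PD.THN
import Pool.Agent.H44.PD.XRA
import Pool.Agent.H44.PD.XSQ
import Pool.Agent.H47.PD.ALP
import Pool.Agent.H47.PD.DEH
import Pool.Agent.H47.PD.SLK
import Pool.Agent.H48.PD.TFA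
import Pool.Agent.H48.PD.TFB
import Pool.Agent.H48.PD.XGA
import Pool.Agent.H48.PD.XGB
import Pool.Agent.H48.PD.XGP
import Pool.Agent.H5.PD.FIA
import Pool.Agent.H5.PD.SLN
import Pool.Agent.H5.PD.XCO
import Pool.Agent.H5.PD.XRB
import Pool.Agent.H5.PD.XYS
import Pool.Agent.H62.PD.LEN
import Pool.Agent.H62.PD.RDT
import Pool.Agent.H62.PD.TRC
import Pool.Agent.H65.PD.DEB
import Pool.Agent.H65.PD.DER
import Pool.Agent.H65.PD.EBD
import Pool.Agent.H65.PD.EWD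
import Pool.Agent.H65.PD.LIP
import Pool.Agent.H65.PD.LOW
import Pool.Agent.H65.PD.MEE
import Pool.Agent.H65.PD.POT
import Pool.Agent.H65.PD.PSB
import Pool.Agent.H65.PD.PSS
import Pool.Agent.H66.PD.COC
import Pool.Agent.H66.PD.RAI
import Pool.Agent.H66.PD.RET
import Pool.Agent.H66.PD.RTB
import Pool.Agent.H66.PD.XGR
import Pool.Agent.H67.PD.DST
import Pool.Agent.H67.PD.FIB
import Pool.Agent.H79.PD.FLP
import Pool.Agent.H79.PD.NOT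
import Pool.Agent.H79.PD.SLB
import Pool.Agent.H79.PD.XEX
import Pool.Agent.H85.PD.XB

set_option autoImplicit false

namespace Pool.Agent.H65.INS

/-- the frozen form S02101 (project PD) -/
theorem pd_core : ∀ d : ℕ, ∃ (k : ℕ) (R : Finset (FreeGroup (Fin k))),
    (∃ K : ℕ, ∀ w ∈ Subgroup.normalClosure (R : Set (FreeGroup (Fin k))),
      ∃ L : List (FreeGroup (Fin k) × FreeGroup (Fin k)),
        (∀ p ∈ L, p.2 ∈ R ∨ p.2⁻¹ ∈ R) ∧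
        (L.map (fun p => p.1 * p.2 * p.1⁻¹)).prod = w ∧
        L.length ≤ K * w.toWord.length + K) ∧
    ∃ (m : ℕ) (g : Fin m → PresentedGroup (R : Set (FreeGroup (Fin k))))
      (R' : Finset (FreeGroup (Fin m))),
      (FreeGroup.lift g).ker = Subgroup.normalClosure (R' : Set (FreeGroup (Fin m))) ∧
      ∃ C : ℕ, ∀ n : ℕ, ∃ w ∈ Subgroup.normalClosure (R' : Set (FreeGroup (Fin m))),
        w.toWord.length ≤ C * n + C ∧
        ∀ L : List (FreeGroup (Fin m) × FreeGroup (Fin m)),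
          (∀ p ∈ L, p.2 ∈ R' ∨ p.2⁻¹ ∈ R') →
          (L.map (fun p => p.1 * p.2 * p.1⁻¹)).prod = w →
          n ^ d ≤ C * L.length + C * n + C := by
  exact fun d => Pool.Agent.H14.PD.asm Pool.Agent.H14.PD.pd_prb Pool.Agent.H14.PD.pd_tqb Pool.Agent.H14.PD.pd_rdb
    Pool.Agent.H14.PD.pd_rdt Pool.Agent.H14.PD.pd_rem Pool.Agent.H14.PD.pd_vdw
    Pool.Agent.H14.PD.pd_lev Pool.Agent.H14.PD.pd_mee Pool.Agent.H14.PD.pd_len
    Pool.Agent.H14.PD.pd_trb Pool.Agent.H14.PD.pd_trc Pool.Agent.H14.PD.pd_thn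
    Pool.Agent.H14.PD.pd_loc Pool.Agent.H14.PD.pd_deh Pool.Agent.H14.PD.pd_log
    Pool.Agent.H14.PD.pd_arc Pool.Agent.H14.PD.pd_tau Pool.Agent.H14.PD.pd_phi
    Pool.Agent.H14.PD.pd_prr Pool.Agent.H14.PD.pd_dea Pool.Agent.H14.PD.pd_amb
    Pool.Agent.H14.PD.pd_slp Pool.Agent.H14.PD.pd_qsw Pool.Agent.H14.PD.pd_ssq
    Pool.Agent.H14.PD.pd_tri Pool.Agent.H14.PD.pd_coc Pool.Agent.H14.PD.pd_ret
    Pool.Agent.H14.PD.pd_rtb Pool.Agent.H14.PD.pd_flp Pool.Agent.H14.PD.pd_del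
    Pool.Agent.H14.PD.pd_big Pool.Agent.H14.PD.pd_slb Pool.Agent.H14.PD.pd_sln
    Pool.Agent.H14.PD.pd_slk Pool.Agent.H14.PD.pd_not Pool.Agent.H14.PD.pd_rai
    Pool.Agent.H14.PD.pd_alp Pool.Agent.H14.PD.pd_der Pool.Agent.H14.PD.pd_deb
    Pool.Agent.H14.PD.pd_psb Pool.Agent.H14.PD.pd_pss Pool.Agent.H14.PD.pd_lip
    Pool.Agent.H14.PD.pd_dst Pool.Agent.H14.PD.pd_pot Pool.Agent.H14.PD.pd_ewd
    Pool.Agent.H14.PD.pd_ebd Pool.Agent.H14.PD.pd_low Pool.Agent.H14.PD.pd_tfa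
    Pool.Agent.H14.PD.pd_tfb Pool.Agent.H14.PD.pd_fia Pool.Agent.H14.PD.pd_fib
    Pool.Agent.H14.PD.pd_tht Pool.Agent.H14.PD.pd_num Pool.Agent.H14.PD.pd_fnl
    Pool.Agent.H14.PD.pd_fin Pool.Agent.H14.PD.pd_xin Pool.Agent.H14.PD.pd_xcm
    Pool.Agent.H14.PD.pd_xsq Pool.Agent.H14.PD.pd_xcv Pool.Agent.H14.PD.pd_xet
    Pool.Agent.H14.PD.pd_xpa Pool.Agent.H14.PD.pd_xex Pool.Agent.H14.PD.pd_xlk
    Pool.Agent.H14.PD.pd_xra Pool.Agent.H14.PD.pd_xrb Pool.Agent.H14.PD.pd_xcp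
    Pool.Agent.H14.PD.pd_xys Pool.Agent.H14.PD.pd_xvp Pool.Agent.H14.PD.pd_xco
    Pool.Agent.H14.PD.pd_xga Pool.Agent.H14.PD.pd_xgp Pool.Agent.H14.PD.pd_xgb
    Pool.Agent.H14.PD.pd_xgr Pool.Agent.H14.PD.pd_szb d

end Pool.Agent.H65.INS
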