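import Mathlib

/-!
# Change of a finite presentation (insurance theorem beside S02101)
-/

set_option autoImplicit false

namespace Pool.Agent.H65.INS

/-- `w` is a product of at most `N` conjugates of elements of `R` or their inverses -/
def AR {α : Type} (R : Set (FreeGroup α)) (N : ℕ) (w : FreeGroup α) : Prop :=
  ∃ L : List (FreeGroup α × FreeGroup α), L.length ≤ N ∧ (∀ p ∈ L, p.2 ∈ R ∨ p.2⁻¹ ∈ R) ∧
    (L.map fun p => p.1 * p.2 * p.1⁻¹).prod = w

section AR

variable {α : Type} {R : Set (FreeGroup α)}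

theorem AR.mono {N N' : ℕ} {w : FreeGroup α} (h : AR R N w) (hN : N ≤ N') : AR R N' w := by
  obtain ⟨L, h1, h2, h3⟩ := h
  exact ⟨L, h1.trans hN, h2, h3⟩

theorem AR.one (N : ℕ) : AR R N 1 := ⟨[], Nat.zero_le _, by simp, by simp⟩

theorem AR.mul {N M : ℕ} {w v : FreeGroup α} (h : AR R N w) (h' : AR R M v) :
    AR R (N + M) (w * v) := by
  obtain ⟨L, h1, h2, h3⟩ := h
  obtain ⟨L', h1', h2', h3'⟩ := h'
  refine ⟨L ++ L', by rw [List.length_append]; omega, ?_, ?_⟩
  · intro p hp
    rcases List.mem_append.1 hp with hp | hp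
    · exact h2 p hp
    · exact h2' p hp
  · rw [List.map_append, List.prod_append, h3, h3']

theorem AR.conj {N : ℕ} {w : FreeGroup α} (h : AR R N w) (g : FreeGroup α) :
    AR R N (g * w * g⁻¹) := by
  obtain ⟨L, h1, h2, h3⟩ := h
  refine ⟨L.map fun p => (g * p.1, p.2), by rwa [List.length_map], ?_, ?_⟩
  · intro p hp
    obtain ⟨q, hq, rfl⟩ := List.mem_map.1 hp
    exact h2 q hq
  · rw [List.map_map]
    have : ∀ L : List (FreeGroup α × FreeGroup α),
        (L.map ((fun p : FreeGroup α × FreeGroup α => p.1 * p.2 * p.1⁻¹) ∘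
          fun p => (g * p.1, p.2))).prod =
        g * (L.map fun p => p.1 * p.2 * p.1⁻¹).prod * g⁻¹ := by
      intro L
      induction L with
      | nil => simp
      | cons p L ih =>
        rw [List.map_cons, List.prod_cons, ih, List.map_cons, List.prod_cons]
        simp only [Function.comp]
        group
    rw [this, h3]

theorem AR.inv {N : ℕ} {w : FreeGroup α} (h : AR R N w) : AR R N w⁻¹ := by
  obtain ⟨L, h1, h2, h3⟩ := h
  refine ⟨(L.map fun p => (p.1, p.2⁻¹)).reverse, by simpa using h1, ?_, ?_⟩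
  · intro p hp
    rw [List.mem_reverse] at hp
    obtain ⟨q, hq, rfl⟩ := List.mem_map.1 hp
    simp only [inv_inv]
    exact (h2 q hq).symm
  · rw [← h3, List.map_reverse, List.map_map, List.prod_inv_reverse, List.map_map]
    congr 2
    refine List.map_congr_left fun p _ => ?_
    simp only [Function.comp]
    group

theorem AR.rel {r : FreeGroup α} (h : r ∈ R) : AR R 1 r :=
  ⟨[(1, r)], by simp, by simp [h], by simp⟩

theorem AR.of_mem {w : FreeGroup α} (h : w ∈ Subgroup.normalClosure R) : ∃ N, AR R N w := by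
  refine Subgroup.closure_induction (p := fun w _ => ∃ N, AR R N w) ?_ ?_ ?_ ?_ h
  · intro x hx
    obtain ⟨r, hr, hc⟩ := Group.mem_conjugatesOfSet_iff.1 hx
    obtain ⟨g, hg⟩ := isConj_iff.1 hc
    exact ⟨1, hg ▸ (AR.rel hr).conj g⟩
  · exact ⟨0, AR.one 0⟩
  · rintro x y _ _ ⟨N, hN⟩ ⟨M, hM⟩
    exact ⟨N + M, hN.mul hM⟩
  · rintro x _ ⟨N, hN⟩
    exact ⟨N, hN.inv⟩

theorem AR.map {β : Type} {S : Set (FreeGroup β)} {M N : ℕ} {w : FreeGroup α}
    (φ : FreeGroup α →* FreeGroup β) (hφ : ∀ r ∈ R, AR S M (φ r)) (h : AR R N w) :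
    AR S (M * N) (φ w) := by
  obtain ⟨L, h1, h2, h3⟩ := h
  have key : ∀ L : List (FreeGroup α × FreeGroup α), (∀ p ∈ L, p.2 ∈ R ∨ p.2⁻¹ ∈ R) →
      AR S (M * L.length) (φ (L.map fun p => p.1 * p.2 * p.1⁻¹).prod) := by
    intro L
    induction L with
    | nil =>
      intro _
      simpa using AR.one (R := S) 0
    | cons p L ih =>
      intro hL
      have h4 : AR S M (φ p.2) := by
        rcases hL p List.mem_cons_self with h | h
        · exact hφ _ h
        · have := (hφ _ h).inv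
          rwa [map_inv, inv_inv] at this
      have h5 := (h4.conj (φ p.1)).mul (ih fun q hq => hL q (List.mem_cons_of_mem _ hq))
      rw [List.map_cons, List.prod_cons, map_mul, map_mul, map_mul, map_inv]
      exact h5.mono (by rw [List.length_cons]; ring_nf; omega)
  rw [← h3]
  exact (key L h2).mono (Nat.mul_le_mul_left _ h1)

end AR

/-- words: the image of a word under a homomorphism of free groups has length at most `c` times
the length -/
theorem norm_hom_le {α β : Type} [DecidableEq α] [DecidableEq β] (φ : FreeGroup α →* FreeGroup β)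
    (c : ℕ) (hc : ∀ a, (φ (FreeGroup.of a)).norm ≤ c) (L : List (α × Bool)) :
    (φ (FreeGroup.mk L)).norm ≤ c * L.length := by
  induction L with
  | nil =>
    have : (FreeGroup.mk ([] : List (α × Bool))) = 1 := rfl
    rw [this, map_one, FreeGroup.norm_one]
    exact Nat.zero_le _
  | cons a L ih =>
    have h1 : FreeGroup.mk (a :: L) = FreeGroup.mk [a] * FreeGroup.mk L := by
      rw [FreeGroup.mul_mk, List.singleton_append]
    have h2 : (φ (FreeGroup.mk [a])).norm ≤ c := by
      obtain ⟨a, b⟩ := a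
      cases b
      · have : FreeGroup.mk [(a, false)] = (FreeGroup.of a)⁻¹ := rfl
        rw [this, map_inv, FreeGroup.norm_inv_eq]
        exact hc a
      · exact hc a
    rw [h1, map_mul, List.length_cons]
    refine (FreeGroup.norm_mul_le _ _).trans ?_
    have : c * (L.length + 1) = c * L.length + c := by ring
    omega

theorem ar_word {α : Type} {R : Set (FreeGroup α)} (ψ : FreeGroup α →* FreeGroup α) (M : ℕ)
    (hM : ∀ a, AR R M ((FreeGroup.of a)⁻¹ * ψ (FreeGroup.of a))) (L : List (α × Bool)) :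
    AR R (M * L.length) ((FreeGroup.mk L)⁻¹ * ψ (FreeGroup.mk L)) := by
  induction L with
  | nil =>
    have : (FreeGroup.mk ([] : List (α × Bool))) = 1 := rfl
    rw [this, map_one, inv_one, mul_one]
    exact AR.one _
  | cons a L ih =>
    have h1 : FreeGroup.mk (a :: L) = FreeGroup.mk [a] * FreeGroup.mk L := by
      rw [FreeGroup.mul_mk, List.singleton_append]
    have h2 : AR R M ((FreeGroup.mk [a])⁻¹ * ψ (FreeGroup.mk [a])) := by
      obtain ⟨a, b⟩ := a
      cases b
      · have e : FreeGroup.mk [(a, false)] = (FreeGroup.of a)⁻¹ := rfl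
        rw [e, map_inv, inv_inv]
        have h3 := ((hM a).inv).conj (FreeGroup.of a)
        have e2 : FreeGroup.of a * ((FreeGroup.of a)⁻¹ * ψ (FreeGroup.of a))⁻¹ *
            (FreeGroup.of a)⁻¹ = FreeGroup.of a * (ψ (FreeGroup.of a))⁻¹ := by group
        rwa [e2] at h3
      · exact hM a
    have h3 := (h2.conj (FreeGroup.mk L)⁻¹).mul ih
    have e : (FreeGroup.mk (a :: L))⁻¹ * ψ (FreeGroup.mk (a :: L)) =
        (FreeGroup.mk L)⁻¹ * ((FreeGroup.mk [a])⁻¹ * ψ (FreeGroup.mk [a])) *
          (FreeGroup.mk L)⁻¹⁻¹ * ((FreeGroup.mk L)⁻¹ * ψ (FreeGroup.mk L)) := by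
      rw [h1, map_mul]
      group
    rw [e]
    refine h3.mono ?_
    rw [List.length_cons]
    have : M * (L.length + 1) = M * L.length + M := by ring
    omega

/-- two finite presentations of one group -/
theorem change {H : Type} [Group H] {m n : ℕ} (f : FreeGroup (Fin m) →* H)
    (g : FreeGroup (Fin n) →* H) (hf : Function.Surjective f) (hg : Function.Surjective g)
    (R : Finset (FreeGroup (Fin m))) (S : Finset (FreeGroup (Fin n)))
    (hR : f.ker = Subgroup.normalClosure (R : Set (FreeGroup (Fin m))))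
    (hS : g.ker = Subgroup.normalClosure (S : Set (FreeGroup (Fin n)))) :
    ∃ C : ℕ, ∀ w ∈ Subgroup.normalClosure (R : Set (FreeGroup (Fin m))),
      ∃ v ∈ Subgroup.normalClosure (S : Set (FreeGroup (Fin n))), v.norm ≤ C * w.norm ∧
        ∀ N, AR (S : Set (FreeGroup (Fin n))) N v →
          AR (R : Set (FreeGroup (Fin m))) (C * N + C * w.norm) w := by
  classical
  choose p hp using fun a : Fin m => hg (f (FreeGroup.of a))
  choose q hq using fun b : Fin n => hf (g (FreeGroup.of b))
  obtain ⟨φ, hφ⟩ : ∃ φ : FreeGroup (Fin m) →* FreeGroup (Fin n), φ = FreeGroup.lift p := ⟨_, rfl⟩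
  obtain ⟨ψ, hψ⟩ : ∃ ψ : FreeGroup (Fin n) →* FreeGroup (Fin m), ψ = FreeGroup.lift q := ⟨_, rfl⟩
  have c1 : ∀ w, g (φ w) = f w := by
    intro w
    have : g.comp φ = f := by
      ext a
      rw [MonoidHom.comp_apply, hφ, FreeGroup.lift_apply_of, hp]
    rw [← MonoidHom.comp_apply, this]
  have c2 : ∀ w, f (ψ w) = g w := by
    intro w
    have : f.comp ψ = g := by
      ext a
      rw [MonoidHom.comp_apply, hψ, FreeGroup.lift_apply_of, hq]
    rw [← MonoidHom.comp_apply, this]
  -- constants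
  obtain ⟨c, hc⟩ : ∃ c : ℕ, ∀ a, (φ (FreeGroup.of a)).norm ≤ c :=
    ⟨Finset.univ.sup fun a => (φ (FreeGroup.of a)).norm, fun a =>
      Finset.le_sup (f := fun a => (φ (FreeGroup.of a)).norm) (Finset.mem_univ a)⟩
  have k1 : ∀ a : Fin m, ∃ N, AR (R : Set (FreeGroup (Fin m))) N
      ((FreeGroup.of a)⁻¹ * ψ (φ (FreeGroup.of a))) := by
    intro a
    apply AR.of_mem
    rw [← hR, MonoidHom.mem_ker, map_mul, map_inv, c2, c1, inv_mul_cancel]
  choose M1 hM1 using k1
  have k2 : ∀ s : FreeGroup (Fin n), ∃ N, s ∈ S → AR (R : Set (FreeGroup (Fin m))) N (ψ s) := by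
    intro s
    by_cases hs : s ∈ S
    · obtain ⟨N, hN⟩ := AR.of_mem (R := (R : Set (FreeGroup (Fin m)))) (w := ψ s) (by
        rw [← hR, MonoidHom.mem_ker, c2]
        have : s ∈ g.ker := by
          rw [hS]
          exact Subgroup.subset_normalClosure hs
        exact this)
      exact ⟨N, fun _ => hN⟩
    · exact ⟨0, fun h => absurd h hs⟩
  choose M2 hM2 using k2
  obtain ⟨A, hA⟩ : ∃ A : ℕ, A = Finset.univ.sup M1 := ⟨_, rfl⟩
  obtain ⟨B, hB⟩ : ∃ B : ℕ, B = S.sup M2 := ⟨_, rfl⟩
  refine ⟨c + A + B, fun w hw => ⟨φ w, ?_, ?_, ?_⟩⟩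
  · rw [← hS, MonoidHom.mem_ker, c1]
    rw [← hR] at hw
    exact hw
  · have h1 := norm_hom_le φ c hc w.toWord
    rw [FreeGroup.mk_toWord] at h1
    refine h1.trans (Nat.mul_le_mul_right _ ?_)
    omega
  · intro N hN
    have h1 := hN.map (S := (R : Set (FreeGroup (Fin m)))) (M := B) ψ (fun s hs =>
      (hM2 s hs).mono (hB ▸ Finset.le_sup (f := M2) hs))
    have h2 := ar_word (R := (R : Set (FreeGroup (Fin m)))) (ψ.comp φ) A (fun a => by
      rw [MonoidHom.comp_apply]
      exact (hM1 a).mono (hA ▸ Finset.le_sup (f := M1) (Finset.mem_univ a))) w.toWord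
    rw [FreeGroup.mk_toWord, MonoidHom.comp_apply] at h2
    have h3 := h1.mul h2.inv
    have e : ψ (φ w) * (w⁻¹ * ψ (φ w))⁻¹ = w := by group
    rw [e] at h3
    refine h3.mono ?_
    have : w.toWord.length = w.norm := rfl
    rw [this]
    gcongr <;> omega

end Pool.Agent.H65.INS
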